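import Mathlib

/-!
# Irreducible Lie algebras without invariant bilinear forms: statement
-/

namespace Pool.Agent.Y224.OD

open Module

/-- The rank of the operator. -/
noncomputable def rkk {K V : Type} [Field K] [AddCommGroup V] [Module K V] (x : End K V) : ℕ :=
  finrank K (LinearMap.range x)

/-- (DUO) Let `L` be a Lie algebra of operators on `U`, generated by a set `S` of involutions,
irreducible and without nonzero invariant bilinear forms. Let `D₀` in `S` be an involution with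
multiplicities `p` and `q`. -/
def S_DUO : Prop :=
  ∀ (K U : Type) [Field K] [CharZero K] [IsAlgClosed K] [AddCommGroup U] [Module K U]
    [FiniteDimensional K U] (L : Submodule K (End K U)) (S : Set (End K U)) (D₀ : End K U)
    (p q : ℕ),
    (∀ y ∈ L, ∀ z ∈ L, y * z - z * y ∈ L) → (∀ D ∈ S, D ∈ L ∧ D * D = 1) →
    (∀ L' : Submodule K (End K U), S ⊆ L' → (∀ y ∈ L', ∀ z ∈ L', y * z - z * y ∈ L') → L ≤ L') →
    (∀ W : Submodule K U, (∀ y ∈ L, ∀ w ∈ W, y w ∈ W) → W = ⊥ ∨ W = ⊤) →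
    (∀ B : U →ₗ[K] U →ₗ[K] K, (∀ y ∈ L, ∀ u v, B (y u) v + B u (y v) = 0) → B = 0) →
    D₀ ∈ S → rkk (1 + D₀) = p → rkk (1 - D₀) = q → 0 < p → 0 < q →
    (∀ D ∈ S, 0 < rkk (1 + D) → 0 < rkk (1 - D) →
      ¬(p + q) ∣ Nat.gcd p q * Nat.gcd (rkk (1 + D)) (rkk (1 - D))) →
    ((p ≠ q ∧ ∀ n a : ℕ, 1 < a → a < n → ¬(p = n.choose a ∧ q = n.choose (a - 1))) ∨
      (p = q ∧ (∀ m : ℕ, 1 ≤ m → p ≠ 2 ^ m) ∧ ∀ D ∈ S, rkk (1 + D) = rkk (1 - D))) →
    ∃ N ∈ L, D₀ * N = N ∧ N * D₀ = -N ∧ rkk N = 1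

end Pool.Agent.Y224.OD
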