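import Mathlib

/-!
# Dense ordinary Frobenius elements: statements of the steps
-/

namespace Pool.Agent.Y224.OD

open Module Polynomial TensorProduct

/-- (INT) An element of all valuation rings of a field is an algebraic integer. -/
def S_INT : Prop :=
  ∀ (K : Type) [Field K] (x : K), (∀ O : ValuationSubring K, x ∈ O) → IsIntegral ℤ x

/-- (SLOPE) The slopes of an ordinary Weil polynomial are `0` and `1`. -/
def S_SLOPE : Prop :=
  ∀ (K : Type) [Field K] [CharZero K] (g : ℕ) (a : Fin (2 * g) → K) (f : ℤ[X]) (p q : ℕ)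
    (σ : Equiv.Perm (Fin (2 * g))) (O : ValuationSubring K), p.Prime → p ∣ q → q ≠ 0 →
    ¬(p : ℤ) ∣ f.coeff g → f.map (Int.castRingHom K) = ∏ i, (X - C (a i)) →
    (∀ i, a i * a (σ i) = q) → (p : K)⁻¹ ∉ O →
    ∀ i, (a i ∈ O ∧ (a i)⁻¹ ∈ O) ∨ (a i / q ∈ O ∧ (q : K) / a i ∈ O)

/-- (HOM) A rational valued homomorphism which is one at a given non-unit and zero at the units. -/
def S_HOM : Prop :=
  ∀ (K : Type) [Field K] (O : ValuationSubring K) (c : Kˣ), (c : K) ∈ O → (c : K)⁻¹ ∉ O →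
    ∃ w : Additive Kˣ →+ ℚ, w (Additive.ofMul c) = 1 ∧
      ∀ u : Kˣ, (u : K) ∈ O → (u : K)⁻¹ ∈ O → w (Additive.ofMul u) = 0

/-- (KRON) Kronecker's theorem for quotients of Weil numbers. -/
def S_KRON : Prop :=
  ∀ (K : Type) [Field K] [CharZero K] (f : ℤ[X]) (r : ℝ) (a b : K), f.Monic → 0 < r →
    (∀ z : ℂ, aeval z f = 0 → ‖z‖ = r) → aeval a f = 0 → aeval b f = 0 → IsIntegral ℤ (a / b) →
    ∃ n : ℕ, 0 < n ∧ (a / b) ^ n = 1

/-- (ROOT) Numbers which are congruent to one modulo `ℓ ^ 2` do not differ by a root of unity. -/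
def S_ROOT : Prop :=
  ∀ (ℓ : ℕ) [Fact ℓ.Prime] (K : Type) [Field K] [Algebra ℚ_[ℓ] K] [Algebra ℤ_[ℓ] K]
    [IsScalarTower ℤ_[ℓ] ℚ_[ℓ] K] (m m' : K), IsIntegral ℤ_[ℓ] m → IsIntegral ℤ_[ℓ] m' →
    ∀ n : ℕ, 0 < n → (1 + (ℓ : K) ^ 2 * m) ^ n = (1 + (ℓ : K) ^ 2 * m') ^ n → m = m'

/-- (EIG) The eigenvalues of the elements of some open subgroup are congruent to one
modulo `ℓ ^ 2`. -/
def S_EIG : Prop :=
  ∀ (ℓ : ℕ) [Fact ℓ.Prime] (V Γ : Type) [AddCommGroup V] [Module ℚ_[ℓ] V]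
    [FiniteDimensional ℚ_[ℓ] V] [Group Γ] [TopologicalSpace Γ] [IsTopologicalGroup Γ]
    [CompactSpace Γ] (ρ : Representation ℚ_[ℓ] Γ V),
    (∀ (v : V) (φ : V →ₗ[ℚ_[ℓ]] ℚ_[ℓ]), Continuous fun g => φ (ρ g v)) →
    ∃ Δ : Subgroup Γ, IsOpen (Δ : Set Γ) ∧ Δ.FiniteIndex ∧ ∀ g ∈ Δ,
      ∀ (K : Type) [Field K] [Algebra ℚ_[ℓ] K] [Algebra ℤ_[ℓ] K] [IsScalarTower ℤ_[ℓ] ℚ_[ℓ] K]
        (a : K) (v : K ⊗[ℚ_[ℓ]] V), v ≠ 0 → (ρ g).baseChange K v = a • v →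
        ∃ m : K, IsIntegral ℤ_[ℓ] m ∧ a = 1 + (ℓ : K) ^ 2 * m

/-- (CLO) The operators commuting with a dense set of elements of an open set commute with all
its elements. -/
def S_CLO : Prop :=
  ∀ (ℓ : ℕ) [Fact ℓ.Prime] (V Γ K : Type) [AddCommGroup V] [Module ℚ_[ℓ] V]
    [FiniteDimensional ℚ_[ℓ] V] [Group Γ] [TopologicalSpace Γ] [Field K] [Algebra ℚ_[ℓ] K]
    (ρ : Representation ℚ_[ℓ] Γ V),
    (∀ (v : V) (φ : V →ₗ[ℚ_[ℓ]] ℚ_[ℓ]), Continuous fun g => φ (ρ g v)) →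
    ∀ D Δ : Set Γ, Dense D → IsOpen Δ → ∀ P : Module.End K (K ⊗[ℚ_[ℓ]] V),
      (∀ g ∈ D ∩ Δ, P * (ρ g).baseChange K = (ρ g).baseChange K * P) →
      ∀ g ∈ Δ, P * (ρ g).baseChange K = (ρ g).baseChange K * P

/-- (PERM) The eigenvalues of a similitude come in pairs. -/
def S_PERM : Prop :=
  ∀ (K X : Type) [Field K] [AddCommGroup X] [Module K X] (n : ℕ) (b : Basis (Fin n) K X)
    (a : Fin n → K) (c : K) (F : Module.End K X) (ω : X →ₗ[K] X →ₗ[K] K),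
    (∀ u, (∀ v, ω u v = 0) → u = 0) → (∀ u v, ω (F u) (F v) = c * ω u v) →
    (∀ i, F (b i) = a i • b i) → ∃ σ : Equiv.Perm (Fin n), ∀ i, a i * a (σ i) = c

/-- (DIAG) A semisimple endomorphism is diagonalizable over an algebraically closed extension. -/
def S_DIAG : Prop :=
  ∀ (k K V : Type) [Field k] [CharZero k] [Field K] [IsAlgClosed K] [Algebra k K]
    [AddCommGroup V] [Module k V] [FiniteDimensional k V] (F : Module.End k V),
    Module.End.IsSemisimple F → ∃ (b : Basis (Fin (finrank k V)) K (K ⊗[k] V))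
      (a : Fin (finrank k V) → K), (∀ i, F.baseChange K (b i) = a i • b i) ∧
      F.charpoly.map (algebraMap k K) = ∏ i, (X - C (a i))

end Pool.Agent.Y224.OD
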