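import Mathlib
import Pool.Agent.Y224.OD.Stm
import Pool.Agent.Y126.Glue

/-!
# Dense ordinary Frobenius elements generate
-/

set_option linter.unusedSectionVars false
set_option linter.unusedSimpArgs false

namespace Pool.Agent.Y224.OD

open Module Polynomial TensorProduct Pool.Agent.Y126.Notions
open Pool.Agent.H204R3.SP Pool.Agent.H204R3.GP Pool.Agent.W522.U

noncomputable section

theorem mem_of_int {K : Type} [Field K] (O : ValuationSubring K) {x : K} (hx : IsIntegral ℤ x) :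
    x ∈ O := by
  have h1 : IsIntegral O x := hx.tower_top
  obtain ⟨y, hy⟩ := IsIntegrallyClosed.isIntegral_iff.1 h1
  rw [← hy]
  exact y.2

theorem repr_diag {K X : Type} [Field K] [AddCommGroup X] [Module K X] {n : ℕ}
    (b : Basis (Fin n) K X) {a : Fin n → K} {F : Module.End K X} (hF : ∀ i, F (b i) = a i • b i)
    (v : X) (j : Fin n) : b.repr (F v) j = a j * b.repr v j := by
  have h : (Finsupp.lapply j ∘ₗ b.repr.toLinearMap) ∘ₗ F =
      a j • (Finsupp.lapply j ∘ₗ b.repr.toLinearMap) := by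
    refine b.ext fun i => ?_
    simp only [LinearMap.comp_apply, hF, map_smul, LinearMap.smul_apply,
      LinearEquiv.coe_coe, Basis.repr_self, Finsupp.lapply_apply, smul_eq_mul,
      Finsupp.single_apply]
    split_ifs with hij
    · rw [hij]
    · simp
  exact LinearMap.congr_fun h v

/-- The operator commutes with a diagonalizable element if its nonzero entries connect equal
eigenvalues. -/
theorem comm_of_entries {K X : Type} [Field K] [AddCommGroup X] [Module K X] {n : ℕ}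
    (b : Basis (Fin n) K X) {a : Fin n → K} {F P : Module.End K X}
    (hF : ∀ i, F (b i) = a i • b i) :
    P * F = F * P ↔ ∀ i j, b.repr (P (b i)) j ≠ 0 → a i = a j := by
  constructor
  · intro h i j hij
    have h1 := congrArg (fun v => b.repr v j) (LinearMap.congr_fun h (b i))
    simp only [Module.End.mul_apply, hF, map_smul, Finsupp.smul_apply, smul_eq_mul] at h1
    rw [repr_diag b hF] at h1
    exact mul_right_cancel₀ hij h1
  · intro h
    refine b.ext fun i => b.repr.injective (Finsupp.ext fun j => ?_)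
    rw [Module.End.mul_apply, Module.End.mul_apply, hF, repr_diag b hF, map_smul, map_smul,
      Finsupp.smul_apply, smul_eq_mul]
    by_cases h0 : b.repr (P (b i)) j = 0
    · rw [h0, mul_zero, mul_zero]
    · rw [h i j h0]

/-- The element of the group is an ordinary Frobenius element: it is semisimple, its characteristic
polynomial is a polynomial with integral coefficients whose complex roots have absolute value
`√q`, where the power `q` of `p` is the value of `χ`, and the middle coefficient is prime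
to `p`. -/
def IsOrdinaryFrobenius {k V Γ : Type} [Field k] [AddCommGroup V] [Module k V]
    [FiniteDimensional k V] [Group Γ] (p : ℕ) (ρ : Representation k Γ V) (χ : Γ →* k) (F : Γ) :
    Prop :=
  Module.End.IsSemisimple (ρ F) ∧ ∃ (N g : ℕ) (f : ℤ[X]), 0 < N ∧ χ F = (p : k) ^ N ∧
    f.natDegree = 2 * g ∧ (ρ F).charpoly = f.map (Int.castRingHom k) ∧
    (∀ z : ℂ, aeval z f = 0 → ‖z‖ ^ 2 = (p : ℝ) ^ N) ∧ ¬(p : ℤ) ∣ f.coeff g

/-- The operator `x` is the slope operator of `F` for the valuation ring `O`: it is `- 1 / 2` on the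
eigenspaces of `F` whose eigenvalue is a unit, and `1 / 2` on those whose eigenvalue is `χ F` times a
unit. -/
def IsSlopeAt {K X Γ : Type} [Field K] [AddCommGroup X] [Module K X] [Group Γ]
    (R : Representation K Γ X) (χ : Γ →* K) (F : Γ) (O : ValuationSubring K)
    (x : Module.End K X) : Prop :=
  (χ F)⁻¹ ∉ O ∧ ∀ (c : K) (v : X), R F v = c • v →
    (c⁻¹ ∈ O → x v = -(1 / 2 : K) • v) ∧ (c / χ F ∈ O → x v = (1 / 2 : K) • v)

theorem ord_slope {K X Γ : Type} [Field K] [CharZero K] [AddCommGroup X] [Module K X]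
    [FiniteDimensional K X] [Group Γ] {R : Representation K Γ X} {χ : Γ →* K} (hHOM : S_HOM)
    {n : ℕ} (F : Γ) (b : Basis (Fin n) K X) (a : Fin n → K) (q : ℕ) (hq : q ≠ 0)
    (hF : ∀ i, R F (b i) = a i • b i) (ha : ∀ i, a i ≠ 0) (hc : χ F = q)
    (O : ValuationSubring K) (hO : (q : K)⁻¹ ∉ O)
    (hs : ∀ i, (a i ∈ O ∧ (a i)⁻¹ ∈ O) ∨ (a i / q ∈ O ∧ (q : K) / a i ∈ O)) :
    ∃ (s : Fin n → ℚ) (x : Module.End K X), x ∈ lieT R χ ∧ x * x = (1 / 4 : K) • 1 ∧
      (∀ i, x (b i) = ((s i - 1 / 2 : ℚ) : K) • b i) ∧ IsSlopeAt R χ F O x ∧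
      ∀ i, (a i ∈ O ∧ (a i)⁻¹ ∈ O ∧ s i = 0) ∨ (a i / q ∈ O ∧ (q : K) / a i ∈ O ∧ s i = 1) := by
  have hq' : (q : K) ≠ 0 := Nat.cast_ne_zero.2 hq
  obtain ⟨w, hw1, hw2⟩ := hHOM K O (Units.mk0 (q : K) hq') (natCast_mem O q) hO
  set au : Fin n → Kˣ := fun i => Units.mk0 (a i) (ha i) with hau
  have hsl : ∀ i, (a i ∈ O ∧ (a i)⁻¹ ∈ O ∧ w (Additive.ofMul (au i)) = 0) ∨
      (a i / q ∈ O ∧ (q : K) / a i ∈ O ∧ w (Additive.ofMul (au i)) = 1) := by
    intro i
    rcases hs i with ⟨h1, h2⟩ | ⟨h1, h2⟩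
    · exact Or.inl ⟨h1, h2, hw2 (au i) h1 h2⟩
    · refine Or.inr ⟨h1, h2, ?_⟩
      have h3 := hw2 (au i / Units.mk0 (q : K) hq') (by simpa [hau] using h1)
        (by simpa [hau] using h2)
      rw [ofMul_div, map_sub, hw1, sub_eq_zero] at h3
      exact h3
  obtain ⟨x, hxb⟩ : ∃ x : Module.End K X, ∀ i,
      x (b i) = ((w (Additive.ofMul (au i)) - 1 / 2 : ℚ) : K) • b i :=
    ⟨b.constr K fun i => ((w (Additive.ofMul (au i)) - 1 / 2 : ℚ) : K) • b i,
      fun i => by rw [Basis.constr_basis]⟩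
  have hxv : ∀ (c κ : K) (v : X), R F v = c • v →
      (∀ i, a i = c → ((w (Additive.ofMul (au i)) - 1 / 2 : ℚ) : K) = κ) → x v = κ • v := by
    intro c κ v hv hi
    refine b.repr.injective (Finsupp.ext fun j => ?_)
    rw [repr_diag b hxb, map_smul, Finsupp.smul_apply, smul_eq_mul]
    have h1 := repr_diag b hF v j
    rw [hv, map_smul, Finsupp.smul_apply, smul_eq_mul] at h1
    by_cases h0 : b.repr v j = 0
    · rw [h0, mul_zero, mul_zero]
    · rw [hi j (mul_right_cancel₀ h0 h1).symm]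
  refine ⟨fun i => w (Additive.ofMul (au i)), x, ?_, ?_, hxb, ⟨by rw [hc]; exact hO, ?_⟩, hsl⟩
  · exact Pool.Agent.Y126.Glue.slope_mem F b au (Units.mk0 (q : K) hq') w hF hc.symm hw1 hxb
  · refine b.ext fun i => ?_
    rw [Module.End.mul_apply, LinearMap.smul_apply, Module.End.one_apply, hxb,
      map_smul, hxb, smul_smul]
    congr 1
    rcases hsl i with ⟨-, -, h⟩ | ⟨-, -, h⟩
    · rw [h]
      push_cast
      norm_num
    · rw [h]
      push_cast
      norm_num
  · intro c v hv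
    refine ⟨fun hcO => hxv c _ v hv fun i hi => ?_, fun hcO => hxv c _ v hv fun i hi => ?_⟩
    · rcases hsl i with ⟨-, -, h⟩ | ⟨h1, -, -⟩
      · rw [h]
        push_cast
        norm_num
      · exfalso
        apply hO
        have h2 : (q : K)⁻¹ = (a i / q) * c⁻¹ := by
          rw [← hi]
          field_simp [ha i]
        rw [h2]
        exact mul_mem h1 hcO
    · rcases hsl i with ⟨-, h1, -⟩ | ⟨-, -, h⟩
      · exfalso
        apply hO
        have h2 : (q : K)⁻¹ = (a i)⁻¹ * (c / χ F) := by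
          rw [← hi, hc]
          field_simp [ha i]
        rw [h2]
        exact mul_mem h1 hcO
      · rw [h]
        push_cast
        norm_num

/-- The slope operator is unique. -/
theorem slope_unique {K X Γ : Type} [Field K] [CharZero K] [AddCommGroup X] [Module K X]
    [Group Γ] {R : Representation K Γ X} {χ : Γ →* K} {n : ℕ} {F : Γ} (b : Basis (Fin n) K X)
    {a : Fin n → K} {q : ℕ} (hF : ∀ i, R F (b i) = a i • b i) (hc : χ F = q)
    {O : ValuationSubring K}
    (hs : ∀ i, (a i ∈ O ∧ (a i)⁻¹ ∈ O) ∨ (a i / q ∈ O ∧ (q : K) / a i ∈ O))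
    {x y : Module.End K X} (hx : IsSlopeAt R χ F O x) (hy : IsSlopeAt R χ F O y) : x = y := by
  refine b.ext fun i => ?_
  rcases hs i with ⟨-, h⟩ | ⟨h, -⟩
  · rw [(hx.2 _ _ (hF i)).1 h, (hy.2 _ _ (hF i)).1 h]
  · rw [(hx.2 _ _ (hF i)).2 (by rw [hc]; exact h), (hy.2 _ _ (hF i)).2 (by rw [hc]; exact h)]

/-- The eigenvalues of an ordinary Frobenius element, connected by an operator which commutes with
the weak Hodge elements, differ by a root of unity. -/
theorem ord_root {K X Γ : Type} [Field K] [CharZero K] [AddCommGroup X] [Module K X]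
    [FiniteDimensional K X] [Group Γ] {R : Representation K Γ X} {χ : Γ →* K} (hHOM : S_HOM)
    (hINT : S_INT) (hSLOPE : S_SLOPE) (hKRON : S_KRON) {p N g : ℕ} (hp : p.Prime) (hN : 0 < N)
    (F : Γ) (b : Basis (Fin (2 * g)) K X) (a : Fin (2 * g) → K) (σ : Equiv.Perm (Fin (2 * g)))
    (hF : ∀ i, R F (b i) = a i • b i) (hc : χ F = (p : K) ^ N)
    (hσ : ∀ i, a i * a (σ i) = (p : K) ^ N) {f : ℤ[X]}
    (hfa : f.map (Int.castRingHom K) = ∏ i, (Polynomial.X - C (a i)))
    (hf : ∀ z : ℂ, aeval z f = 0 → ‖z‖ ^ 2 = (p : ℝ) ^ N) (hcoef : ¬(p : ℤ) ∣ f.coeff g)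
    {P : Module.End K X} (hP : ∀ (O : ValuationSubring K) (x : Module.End K X),
      IsSlopeAt R χ F O x → P * x = x * P)
    {i j : Fin (2 * g)} (hij : b.repr (P (b i)) j ≠ 0) : ∃ n : ℕ, 0 < n ∧ (a i / a j) ^ n = 1 := by
  have hp0 : (p : K) ≠ 0 := Nat.cast_ne_zero.2 hp.ne_zero
  have hq0 : (p : K) ^ N ≠ 0 := pow_ne_zero _ hp0
  have ha : ∀ i, a i ≠ 0 := fun i h => hq0 (by rw [← hσ i, h, zero_mul])
  have hmon : f.Monic := by
    have h1 : (f.map (Int.castRingHom K)).Monic := by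
      rw [hfa]
      exact monic_prod_of_monic _ _ fun i _ => monic_X_sub_C _
    exact (Function.Injective.monic_map_iff (RingHom.injective_int (Int.castRingHom K))).2 h1
  have hroot : ∀ i, aeval (a i) f = 0 := by
    intro i
    have h1 : (f.map (Int.castRingHom K)).eval (a i) = 0 := by
      rw [hfa, eval_prod]
      exact Finset.prod_eq_zero (Finset.mem_univ i) (by simp)
    rw [eval_map] at h1
    exact h1
  have hint : ∀ i, IsIntegral ℤ (a i) := fun i => ⟨f, hmon, hroot i⟩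
  have hmem : ∀ (O : ValuationSubring K) i, a i ∈ O := fun O i => mem_of_int O (hint i)
  refine hKRON K f (Real.sqrt ((p : ℝ) ^ N)) (a i) (a j) hmon
    (Real.sqrt_pos.2 (pow_pos (Nat.cast_pos.2 hp.pos) _))
    (fun z hz => by rw [← hf z hz, Real.sqrt_sq (norm_nonneg z)]) (hroot i) (hroot j)
    (hINT K _ fun O => ?_)
  by_cases hO : (p : K)⁻¹ ∈ O
  · have h1 : (a j)⁻¹ = a (σ j) * ((p : K)⁻¹) ^ N := by
      rw [inv_pow, eq_mul_inv_iff_mul_eq₀ hq0, ← hσ j]
      field_simp [ha j]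
    rw [div_eq_mul_inv, h1]
    exact mul_mem (hmem O i) (mul_mem (hmem O _) (pow_mem hO N))
  · have hqc : ((p ^ N : ℕ) : K) = (p : K) ^ N := Nat.cast_pow p N
    have hO' : (((p ^ N : ℕ) : K))⁻¹ ∉ O := by
      intro h
      apply hO
      have h1 : (p : K)⁻¹ = (p : K) ^ (N - 1) * (((p ^ N : ℕ) : K))⁻¹ := by
        rw [hqc, ← Nat.sub_add_cancel hN, pow_succ, Nat.add_sub_cancel]
        field_simp
      rw [h1]
      exact mul_mem (pow_mem (natCast_mem O p) _) h
    have hsl := hSLOPE K g a f p (p ^ N) σ O hp (dvd_pow_self p hN.ne')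
      (pow_ne_zero _ hp.ne_zero) hcoef hfa (fun i => by rw [hσ i, hqc]) hO
    obtain ⟨s, x, hx, hxx, hxb, hxs, hs⟩ := ord_slope (R := R) (χ := χ) hHOM F b a (p ^ N)
      (pow_ne_zero _ hp.ne_zero) hF ha (by rw [hc, hqc]) O hO' hsl
    have h1 := (comm_of_entries b hxb).1 (hP O x hxs) i j hij
    have h2 : s i = s j := by
      have h3 := Rat.cast_injective h1
      linarith
    rcases hs i with ⟨h3, h4, h5⟩ | ⟨h3, h4, h5⟩
    · rcases hs j with ⟨h6, h7, h8⟩ | ⟨h6, h7, h8⟩
      · rw [div_eq_mul_inv]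
        exact mul_mem h3 h7
      · rw [h5, h8] at h2
        exact absurd h2 (by norm_num)
    · rcases hs j with ⟨h6, h7, h8⟩ | ⟨h6, h7, h8⟩
      · rw [h5, h8] at h2
        exact absurd h2 (by norm_num)
      · have h9 : a i / a j = (a i / ((p ^ N : ℕ) : K)) * (((p ^ N : ℕ) : K) / a j) := by
          rw [hqc]
          field_simp [ha j]
        rw [h9]
        exact mul_mem h3 h7

end

end Pool.Agent.Y224.OD
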