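import Mathlib
import Pool.Agent.Y224.OD.Main

/-!
# Dense ordinary Frobenius elements generate: the theorem
-/

set_option linter.unusedSectionVars false
set_option linter.unusedSimpArgs false

namespace Pool.Agent.Y224.OD

open Module TensorProduct
open Pool.Agent.H204R3.SP Pool.Agent.H204R3.GP Pool.Agent.W522.U

noncomputable section

variable (hHOM : S_HOM) (hINT : S_INT) (hSLOPE : S_SLOPE) (hKRON : S_KRON) (hROOT : S_ROOT)
  (hEIG : S_EIG) (hCLO : S_CLO) (hPERM : S_PERM) (hDIAG : S_DIAG)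
  (ℓ : ℕ) [Fact ℓ.Prime] {V Γ K : Type} [AddCommGroup V] [Module ℚ_[ℓ] V]
  [FiniteDimensional ℚ_[ℓ] V] [Group Γ] [TopologicalSpace Γ] [IsTopologicalGroup Γ]
  [CompactSpace Γ] [Field K] [IsAlgClosed K] [Algebra ℚ_[ℓ] K]
  (ρ : Representation ℚ_[ℓ] Γ V) (χ : Γ →* ℚ_[ℓ]) (ω : V →ₗ[ℚ_[ℓ]] V →ₗ[ℚ_[ℓ]] ℚ_[ℓ])
  (halt : ∀ v, ω v v = 0) (hnondeg : ∀ u, (∀ v, ω v u = 0) → u = 0)
  (hω : ∀ s u v, ω (ρ s u) (ρ s v) = χ s * ω u v)

include hDIAG hPERM halt hnondeg hω in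
theorem ord_basis {p : ℕ} {F : Γ} (hF : IsOrdinaryFrobenius p ρ χ F) :
    ∃ (N g : ℕ) (f : Polynomial ℤ) (b : Basis (Fin (2 * g)) K (K ⊗[ℚ_[ℓ]] V))
      (a : Fin (2 * g) → K) (σ : Equiv.Perm (Fin (2 * g))), 0 < N ∧
      (∀ i, bcr ρ K F (b i) = a i • b i) ∧ bcc χ K F = (p : K) ^ N ∧
      (∀ i, a i * a (σ i) = (p : K) ^ N) ∧
      f.map (Int.castRingHom K) = ∏ i, (Polynomial.X - Polynomial.C (a i)) ∧
      (∀ z : ℂ, Polynomial.aeval z f = 0 → ‖z‖ ^ 2 = (p : ℝ) ^ N) ∧ ¬(p : ℤ) ∣ f.coeff g := by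
  obtain ⟨hs, N, g, f, hN, hc, hdeg, hf, habs, hcoef⟩ := hF
  have hcard : finrank ℚ_[ℓ] V = 2 * g := by
    rw [← hdeg, ← LinearMap.charpoly_natDegree (ρ F), hf,
      Polynomial.natDegree_map_eq_of_injective (RingHom.injective_int _)]
  obtain ⟨b, a, hb, hca⟩ : ∃ (b : Basis (Fin (2 * g)) K (K ⊗[ℚ_[ℓ]] V)) (a : Fin (2 * g) → K),
      (∀ i, (ρ F).baseChange K (b i) = a i • b i) ∧
      (ρ F).charpoly.map (algebraMap ℚ_[ℓ] K) =
        ∏ i, (Polynomial.X - Polynomial.C (a i)) := by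
    rw [← hcard]
    exact hDIAG ℚ_[ℓ] K V (ρ F) hs
  have hc' : bcc χ K F = (p : K) ^ N := by
    rw [bcc_apply, hc, map_pow, map_natCast]
  have hl1 : ∀ u, (∀ v, bcb K ω u v = 0) → u = 0 := fun u hu =>
    bcb_nondeg_left ω hnondeg (left_nondeg ω halt hnondeg) u hu
  obtain ⟨σ, hσ⟩ := hPERM K (K ⊗[ℚ_[ℓ]] V) (2 * g) b a (bcc χ K F) (bcr ρ K F) (bcb K ω) hl1
    (fun u v => bcb_inv ρ χ ω hω F u v) hb
  refine ⟨N, g, f, b, a, σ, hN, hb, hc', fun i => by rw [hσ i, hc'], ?_, habs, hcoef⟩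
  rw [← hca, hf, Polynomial.map_map]
  congr 1
  exact RingHom.ext_int _ _

/-- There is a valuation ring in which the prime `p` is not a unit. -/
theorem exists_val (hINT : S_INT) {K : Type} [Field K] [CharZero K] {p : ℕ} (hp : p.Prime) :
    ∃ O : ValuationSubring K, (p : K)⁻¹ ∉ O := by
  by_contra hcon
  push Not at hcon
  have h1 : IsIntegral ℤ ((p : K)⁻¹) := hINT K _ hcon
  have h2 : (p : K)⁻¹ = algebraMap ℚ K (p : ℚ)⁻¹ := by
    rw [map_inv₀, map_natCast]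
  rw [h2, isIntegral_algebraMap_iff (algebraMap ℚ K).injective] at h1
  obtain ⟨z, hz⟩ := IsIntegrallyClosed.isIntegral_iff.1 h1
  have hz' : (z : ℚ) = (p : ℚ)⁻¹ := hz
  have hp0 : (p : ℚ) ≠ 0 := Nat.cast_ne_zero.2 hp.ne_zero
  have h3 : ((z * p : ℤ) : ℚ) = ((1 : ℤ) : ℚ) := by
    push_cast
    rw [hz', inv_mul_cancel₀ hp0]
  have h4 : z * p = 1 := Int.cast_injective h3
  have h5 : (p : ℤ) ∣ 1 := ⟨z, by rw [← h4, mul_comm]⟩
  have h6 : p ∣ 1 := by exact_mod_cast h5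
  exact hp.one_lt.ne' (Nat.dvd_one.1 h6)

/-- The slope operators of the ordinary Frobenius elements. -/
def IsSlopeOp (K : Type) [Field K] [Algebra ℚ_[ℓ] K] (x : Module.End K (K ⊗[ℚ_[ℓ]] V)) : Prop :=
  ∃ (p : ℕ) (F : Γ) (O : ValuationSubring K), p.Prime ∧ IsOrdinaryFrobenius p ρ χ F ∧
    IsSlopeAt (bcr ρ K) (bcc χ K) F O x

include hHOM hSLOPE hPERM hDIAG halt hnondeg hω in
/-- The slope operator of an ordinary Frobenius element for a valuation ring. -/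
theorem slope_op {p : ℕ} (hp : p.Prime) {F : Γ} (hF : IsOrdinaryFrobenius p ρ χ F)
    {O : ValuationSubring K} (hO : (bcc χ K F)⁻¹ ∉ O) :
    ∃ x ∈ lieT (bcr ρ K) (bcc χ K), x * x = (1 / 4 : K) • 1 ∧
      IsSlopeAt (bcr ρ K) (bcc χ K) F O x ∧
      ∀ y, IsSlopeAt (bcr ρ K) (bcc χ K) F O y → y = x := by
  have : CharZero K := charZero_of_injective_algebraMap (algebraMap ℚ_[ℓ] K).injective
  obtain ⟨N, g, f, b, a, σ, hN, hb, hc, hσ, hfa, habs, hcoef⟩ := ord_basis (K := K) hPERM hDIAG ℓ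
    ρ χ ω halt hnondeg hω hF
  have hp0 : (p : K) ≠ 0 := Nat.cast_ne_zero.2 hp.ne_zero
  have hq0 : (p : K) ^ N ≠ 0 := pow_ne_zero _ hp0
  have ha : ∀ i, a i ≠ 0 := fun i h => hq0 (by rw [← hσ i, h, zero_mul])
  have hqc : ((p ^ N : ℕ) : K) = (p : K) ^ N := Nat.cast_pow p N
  have hO' : (((p ^ N : ℕ) : K))⁻¹ ∉ O := by
    rw [hqc, ← hc]
    exact hO
  have hOp : (p : K)⁻¹ ∉ O := by
    intro h
    apply hO
    rw [hc, ← inv_pow]
    exact pow_mem h N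
  have hsl := hSLOPE K g a f p (p ^ N) σ O hp (dvd_pow_self p hN.ne')
    (pow_ne_zero _ hp.ne_zero) hcoef hfa (fun i => by rw [hσ i, hqc]) hOp
  obtain ⟨s, x, hx, hxx, -, hxs, -⟩ := ord_slope (R := bcr ρ K) (χ := bcc χ K) hHOM F b a (p ^ N)
    (pow_ne_zero _ hp.ne_zero) hb ha (by rw [hc, hqc]) O hO' hsl
  exact ⟨x, hx, hxx, hxs, fun y hy => slope_unique b hb (by rw [hc, hqc]) hsl hy hxs⟩

include hHOM hSLOPE hPERM hDIAG halt hnondeg hω in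
theorem slope_weak {x : Module.End K (K ⊗[ℚ_[ℓ]] V)} (hx : IsSlopeOp ℓ ρ χ K x) :
    x ∈ lieT (bcr ρ K) (bcc χ K) ∧ x * x = (1 / 4 : K) • 1 := by
  obtain ⟨p, F, O, hp, hF, hs⟩ := hx
  obtain ⟨y, hy, hyy, -, hu⟩ := slope_op (K := K) hHOM hSLOPE hPERM hDIAG ℓ ρ χ ω halt hnondeg hω hp
    hF hs.1
  rw [hu x hs]
  exact ⟨hy, hyy⟩

/-- Conjugates of ordinary Frobenius elements. -/
theorem ord_conj {p : ℕ} {F : Γ} (hF : IsOrdinaryFrobenius p ρ χ F) (g : Γ) :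
    IsOrdinaryFrobenius p ρ χ (g * F * g⁻¹) := by
  obtain ⟨hs, N, n, f, hN, hc, hdeg, hf, habs, hco⟩ := hF
  obtain ⟨e, he⟩ : ∃ e : V ≃ₗ[ℚ_[ℓ]] V, ∀ v, e v = ρ g v := by
    refine ⟨LinearEquiv.ofLinearMap (ρ g) (ρ g⁻¹) ?_ ?_, fun v => rfl⟩
    · rw [← Module.End.mul_eq_comp, ← map_mul, mul_inv_cancel, map_one]
      rfl
    · rw [← Module.End.mul_eq_comp, ← map_mul, inv_mul_cancel, map_one]
      rfl
  have hconj : ρ (g * F * g⁻¹) = e.conj (ρ F) := by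
    refine LinearMap.ext fun v => ?_
    obtain ⟨w, rfl⟩ := e.surjective v
    rw [LinearEquiv.conj_apply_apply, e.symm_apply_apply, he, he, ← Module.End.mul_apply,
      ← map_mul, inv_mul_cancel_right, map_mul]
    rfl
  refine ⟨?_, N, n, f, hN, ?_, hdeg, ?_, habs, hco⟩
  · refine (LinearEquiv.isSemisimple_iff (ρ F) (ρ (g * F * g⁻¹)) e ?_).1 hs
    rw [hconj]
    refine LinearMap.ext fun v => ?_
    change e (ρ F v) = e.conj (ρ F) (e v)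
    rw [LinearEquiv.conj_apply_apply, e.symm_apply_apply]
  · have h1 : χ g * χ g⁻¹ = 1 := by rw [← map_mul, mul_inv_cancel, map_one]
    rw [map_mul, map_mul, mul_assoc, mul_comm (χ F), ← mul_assoc, h1, one_mul, hc]
  · rw [hconj, LinearEquiv.charpoly_conj, hf]

theorem slope_conj {x : Module.End K (K ⊗[ℚ_[ℓ]] V)} (hx : IsSlopeOp ℓ ρ χ K x) (g : Γ) :
    IsSlopeOp ℓ ρ χ K (bcr ρ K g * x * bcr ρ K g⁻¹) := by
  obtain ⟨p, F, O, hp, hF, h1, h2⟩ := hx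
  have hχ : bcc χ K (g * F * g⁻¹) = bcc χ K F := by
    have h1 : bcc χ K g * bcc χ K g⁻¹ = 1 := by rw [← map_mul, mul_inv_cancel, map_one]
    rw [map_mul, map_mul, mul_assoc, mul_comm (bcc χ K F), ← mul_assoc, h1, one_mul]
  have hgg : ∀ v, bcr ρ K g (bcr ρ K g⁻¹ v) = v := by
    intro v
    rw [← Module.End.mul_apply, ← map_mul, mul_inv_cancel, map_one]
    rfl
  have hgg' : ∀ v, bcr ρ K g⁻¹ (bcr ρ K g v) = v := by
    intro v
    rw [← Module.End.mul_apply, ← map_mul, inv_mul_cancel, map_one]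
    rfl
  refine ⟨p, g * F * g⁻¹, O, hp, ord_conj ℓ ρ χ hF g, by rw [hχ]; exact h1, fun c v hv => ?_⟩
  have hv' : bcr ρ K F (bcr ρ K g⁻¹ v) = c • bcr ρ K g⁻¹ v := by
    rw [← map_smul, ← hv, map_mul, map_mul, Module.End.mul_apply, Module.End.mul_apply, hgg']
  rw [hχ]
  obtain ⟨h3, h4⟩ := h2 c _ hv'
  constructor
  · intro h
    change bcr ρ K g (x (bcr ρ K g⁻¹ v)) = _
    rw [h3 h, map_smul, hgg]
  · intro h
    change bcr ρ K g (x (bcr ρ K g⁻¹ v)) = _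
    rw [h4 h, map_smul, hgg]

include hHOM hINT hSLOPE hPERM hDIAG halt hnondeg hω in
/-- There is a slope operator. -/
theorem exists_slope {p : ℕ} (hp : p.Prime) {F : Γ} (hF : IsOrdinaryFrobenius p ρ χ F) :
    ∃ x, IsSlopeOp ℓ ρ χ K x := by
  have : CharZero K := charZero_of_injective_algebraMap (algebraMap ℚ_[ℓ] K).injective
  obtain ⟨O, hO⟩ := exists_val hINT (K := K) hp
  have hO' : (bcc χ K F)⁻¹ ∉ O := by
    obtain ⟨hs, N, g, f, hN, hc, -⟩ := id hF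
    have hc' : bcc χ K F = (p : K) ^ N := by
      rw [bcc_apply, hc, map_pow, map_natCast]
    have hp0 : (p : K) ≠ 0 := Nat.cast_ne_zero.2 hp.ne_zero
    rw [hc']
    intro h
    apply hO
    have h1 : (p : K)⁻¹ = (p : K) ^ (N - 1) * ((p : K) ^ N)⁻¹ := by
      rw [← Nat.sub_add_cancel hN, pow_succ, Nat.add_sub_cancel]
      field_simp
    rw [h1]
    exact mul_mem (pow_mem (natCast_mem O p) _) h
  obtain ⟨x, -, -, hx, -⟩ := slope_op (K := K) hHOM hSLOPE hPERM hDIAG ℓ ρ χ ω halt hnondeg hω hp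
    hF hO'
  exact ⟨x, p, F, O, hp, hF, hx⟩

include hHOM hINT hSLOPE hKRON hROOT hEIG hCLO hPERM hDIAG halt hnondeg hω in
/-- **Dense ordinary Frobenius elements generate**: what commutes with their slope operators
commutes with a subgroup of finite index. -/
theorem generate (hcont : ∀ (v : V) (φ : V →ₗ[ℚ_[ℓ]] ℚ_[ℓ]), Continuous fun g => φ (ρ g v))
    (hord : Dense {F | ∃ p : ℕ, p.Prime ∧ IsOrdinaryFrobenius p ρ χ F})
    {P : Module.End K (K ⊗[ℚ_[ℓ]] V)} (hP : ∀ x, IsSlopeOp ℓ ρ χ K x → P * x = x * P) :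
    ∃ Δ : Subgroup Γ, Δ.FiniteIndex ∧ ∀ g ∈ Δ, P * bcr ρ K g = bcr ρ K g * P := by
  have : CharZero K := charZero_of_injective_algebraMap (algebraMap ℚ_[ℓ] K).injective
  obtain ⟨Δ, hΔo, hΔf, hΔ⟩ := hEIG ℓ V Γ ρ hcont
  refine ⟨Δ, hΔf, hCLO ℓ V Γ K ρ hcont _ Δ hord hΔo P ?_⟩
  rintro F ⟨⟨p, hp, hF⟩, hFΔ⟩
  obtain ⟨N, g, f, b, a, σ, hN, hb, hc, hσ, hfa, habs, hcoef⟩ := ord_basis (K := K) hPERM hDIAG ℓ
    ρ χ ω halt hnondeg hω hF
  have hp0 : (p : K) ≠ 0 := Nat.cast_ne_zero.2 hp.ne_zero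
  have hq0 : (p : K) ^ N ≠ 0 := pow_ne_zero _ hp0
  have ha : ∀ i, a i ≠ 0 := fun i h => hq0 (by rw [← hσ i, h, zero_mul])
  let _ : Algebra ℤ_[ℓ] K := ((algebraMap ℚ_[ℓ] K).comp (algebraMap ℤ_[ℓ] ℚ_[ℓ])).toAlgebra
  have : IsScalarTower ℤ_[ℓ] ℚ_[ℓ] K := IsScalarTower.of_algebraMap_eq fun x => rfl
  refine (comm_of_entries b (a := a) hb).2 fun i j hij => ?_
  obtain ⟨n, hn, hroot⟩ := ord_root (R := bcr ρ K) (χ := bcc χ K) hHOM hINT hSLOPE hKRON hp hN F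
    b a σ hb hc hσ hfa habs hcoef (fun O x hx => hP x ⟨p, F, O, hp, hF, hx⟩) hij
  obtain ⟨m, hm, hai⟩ := hΔ F hFΔ K (a i) (b i) (b.ne_zero i) (hb i)
  obtain ⟨m', hm', haj⟩ := hΔ F hFΔ K (a j) (b j) (b.ne_zero j) (hb j)
  have h1 : a i ^ n = a j ^ n := by
    rw [div_pow, div_eq_one_iff_eq (pow_ne_zero _ (ha j))] at hroot
    exact hroot
  rw [hai, haj] at h1
  have h2 := hROOT ℓ K m m' hm hm' n hn h1
  rw [hai, haj, h2]

end

end Pool.Agent.Y224.OD
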