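import Mathlib
import Pool.Agent.Y224.OD.Gen
import Pool.Agent.Y224.CP.S6
import Pool.Agent.Y949.OD.Diag
import Pool.Agent.Y919.OD.Perm
import Pool.Agent.Y388.OD.Clo
import Pool.Agent.Y388.OD.Int
import Pool.Agent.Y799.OD.Eig
import Pool.Agent.Y185.OD.Root
import Pool.Agent.Y185.OD.Hom
import Pool.Agent.Y759.OD.Kron
import Pool.Agent.Y275.OD.Slope

/-!
# Dense ordinary Frobenius elements generate: without hypotheses
-/

namespace Pool.Agent.Y224.OD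

open Module TensorProduct Pool.Agent.Y224.CP
open Pool.Agent.H204R3.SP Pool.Agent.H204R3.GP Pool.Agent.W522.U

noncomputable section

variable (ℓ : ℕ) [Fact ℓ.Prime] {V Γ : Type} (K : Type) [AddCommGroup V] [Module ℚ_[ℓ] V]
  [FiniteDimensional ℚ_[ℓ] V] [Group Γ] [TopologicalSpace Γ] [IsTopologicalGroup Γ]
  [CompactSpace Γ] [Field K] [IsAlgClosed K] [Algebra ℚ_[ℓ] K]
  (ρ : Representation ℚ_[ℓ] Γ V) (χ : Γ →* ℚ_[ℓ]) (ω : V →ₗ[ℚ_[ℓ]] V →ₗ[ℚ_[ℓ]] ℚ_[ℓ])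
  (halt : ∀ v, ω v v = 0) (hnondeg : ∀ u, (∀ v, ω v u = 0) → u = 0)
  (hω : ∀ s u v, ω (ρ s u) (ρ s v) = χ s * ω u v)
  (hcont : ∀ (v : V) (φ : V →ₗ[ℚ_[ℓ]] ℚ_[ℓ]), Continuous fun g => φ (ρ g v))
  (hord : Dense {F | ∃ p : ℕ, p.Prime ∧ IsOrdinaryFrobenius p ρ χ F})

include halt hnondeg hω hcont hord in
/-- **The slope operators of dense ordinary Frobenius elements generate.** -/
theorem slope_gen : Gen (bcr ρ K) (bcc χ K) {x | IsSlopeOp ℓ ρ χ K x} where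
  weak _ hx := slope_weak Pool.Agent.Y185.OD.t_hom Pool.Agent.Y275.OD.t_slope
    Pool.Agent.Y919.OD.t_perm Pool.Agent.Y949.OD.t_diag ℓ ρ χ ω halt hnondeg hω hx
  conj g _ hx := slope_conj ℓ ρ χ hx g
  gen _ hP := generate Pool.Agent.Y185.OD.t_hom Pool.Agent.Y388.OD.t_int
    Pool.Agent.Y275.OD.t_slope Pool.Agent.Y759.OD.t_kron Pool.Agent.Y185.OD.t_root
    Pool.Agent.Y799.OD.t_eig Pool.Agent.Y388.OD.t_clo Pool.Agent.Y919.OD.t_perm
    Pool.Agent.Y949.OD.t_diag ℓ ρ χ ω halt hnondeg hω hcont hord hP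

include halt hnondeg hω hord in
/-- There is a slope operator. -/
theorem slope_nonempty : {x | IsSlopeOp ℓ ρ χ K x}.Nonempty := by
  obtain ⟨F, p, hp, hF⟩ := hord.nonempty
  exact exists_slope Pool.Agent.Y185.OD.t_hom Pool.Agent.Y388.OD.t_int
    Pool.Agent.Y275.OD.t_slope Pool.Agent.Y919.OD.t_perm Pool.Agent.Y949.OD.t_diag ℓ
    ρ χ ω halt hnondeg hω hp hF

end

end Pool.Agent.Y224.OD
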